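import Pool.Agent.Lib.MP_9277c3_lc.helper83.Asm
import Pool.Agent.Lib.MP_9277c3_lc.helper83.TURN
import Pool.Agent.Lib.MP_9277c3_lc.TU.Main
import Pool.Agent.Lib.MP_9277c3_lc.TT.Plus

section
/-!
# Levels which are needed for runs with few turns

`lvl n R` is a level which is sufficient for runs with `R` turns on words of length `n`, and
`top K a n` is a level which is sufficient for all accepting runs with at most `a (n + 1) ^ a` steps.
-/
set_option autoImplicit false

namespace Pool.Agent.Lib.MP_9277c3_lc.TN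

open CM CL

/-- The number `log log n`. -/
def ll (n : ℕ) : ℕ := Nat.log 2 (Nat.log 2 (n + 2)) + 1

/-- A level for `R` turns. -/
def lvl (n R : ℕ) : ℕ := 3 * (Nat.log 2 (R + 1) / ll n) + 7

/-- A level for all runs. -/
def top (K a n : ℕ) : ℕ := 2 * (a + 1) * dP K n

section

variable {K n : ℕ}

theorem lg_pos : 1 ≤ Nat.log 2 (n + 2) := Nat.log_pos (by norm_num) (by omega)

theorem three_le_lT (hK : 64 ≤ K) : 3 ≤ lT K n := by
  have h1 := T_ge (n := n) hK
  by_contra hcon
  have h2 : TP K n ≤ 2 ^ 2 := Nat.pow_le_pow_right (by norm_num) (by omega)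
  omega

theorem ll_le (hK : 64 ≤ K) : ll n ≤ 2 * lT K n := by
  have h1 := m_lt_T2 (K := K) (n := n)
  have h2 := log_le (n := n) hK
  have h3 : TP K n * TP K n = 2 ^ (2 * lT K n) := by rw [TP, ← pow_add]; congr 1; ring
  have h4 : Nat.log 2 (Nat.log 2 (n + 2)) < 2 * lT K n := by
    refine Nat.log_lt_of_lt_pow ?_ ?_
    · have := lg_pos (n := n); omega
    · omega
  unfold ll
  omega

theorem ll_le' (hK : 64 ≤ K) : ll n ≤ 3 * (lT K n - 1) := by
  have h1 := three_le_lT (n := n) hK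
  have h2 := ll_le (n := n) hK
  omega

theorem half_eq (hK : 64 ≤ K) : TP K n / 2 = 2 ^ (lT K n - 1) := by
  have h0 := l_pos (n := n) hK
  have h1 : TP K n = 2 * 2 ^ (lT K n - 1) := by
    rw [TP, ← pow_succ', show lT K n - 1 + 1 = lT K n by omega]
  omega

/-- Enough levels for `R` turns. -/
theorem turns_le (hK : 64 ≤ K) (R : ℕ) {j : ℕ} (hj : 3 * (Nat.log 2 (R + 1) / ll n + 1) ≤ j) :
    R + 1 ≤ (TP K n / 2) ^ j := by
  rw [half_eq hK, ← pow_mul]
  have h1 := ll_le' (n := n) hK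
  have h2 : R + 1 < 2 ^ (Nat.log 2 (R + 1) + 1) := Nat.lt_pow_succ_log_self (by norm_num) _
  refine h2.le.trans (Nat.pow_le_pow_right (by norm_num) ?_)
  have h3 : Nat.log 2 (R + 1) < ll n * (Nat.log 2 (R + 1) / ll n + 1) :=
    Nat.lt_mul_div_succ _ (Nat.succ_pos _)
  calc Nat.log 2 (R + 1) + 1 ≤ ll n * (Nat.log 2 (R + 1) / ll n + 1) := h3
    _ ≤ 3 * (lT K n - 1) * (Nat.log 2 (R + 1) / ll n + 1) := Nat.mul_le_mul_right _ h1
    _ = (lT K n - 1) * (3 * (Nat.log 2 (R + 1) / ll n + 1)) := by ring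
    _ ≤ (lT K n - 1) * j := Nat.mul_le_mul_left _ hj

/-- Enough levels for all runs. -/
theorem size_le (hK : 64 ≤ K) (a : ℕ) {l : ℕ} (hl : top K a n ≤ l) :
    4 * (a * (n + 1) ^ a) ≤ (TP K n / 2) ^ l := by
  have h1 := T_ge (n := n) hK
  have h2 := TP_even (n := n) hK
  have h3 := four_le_Q (n := n) hK
  have h4 : TP K n ≤ (TP K n / 2) ^ 2 := by
    rw [pow_two]
    have : 2 * (TP K n / 2) ≤ TP K n / 2 * (TP K n / 2) := Nat.mul_le_mul_right _ (by omega)
    omega
  have h5 : TP K n ^ ((a + 1) * dP K n) ≤ (TP K n / 2) ^ l := by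
    calc TP K n ^ ((a + 1) * dP K n) ≤ ((TP K n / 2) ^ 2) ^ ((a + 1) * dP K n) :=
          Nat.pow_le_pow_left h4 _
      _ = (TP K n / 2) ^ (top K a n) := by rw [← pow_mul, top]; congr 1; ring
      _ ≤ (TP K n / 2) ^ l := Nat.pow_le_pow_right (by omega) hl
  refine le_trans ?_ h5
  have e1 : n + 1 ≤ K * (n + 3) := by nlinarith
  have e2 : n + 1 ≤ (K * (n + 3)) ^ 5 := e1.trans (Nat.le_self_pow (by norm_num) _)
  have e3 : a ≤ 4 ^ a := (Nat.lt_pow_self (by norm_num)).le
  calc 4 * (a * (n + 1) ^ a) ≤ 4 * (4 ^ a * (n + 1) ^ (a + 1)) := by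
        gcongr
        · omega
        · omega
    _ = 4 ^ (a + 1) * (n + 1) ^ (a + 1) := by ring
    _ ≤ 4 ^ (a + 1) * ((K * (n + 3)) ^ 5) ^ (a + 1) := by gcongr
    _ = (4 * (K * (n + 3)) ^ 5) ^ (a + 1) := (mul_pow _ _ _).symm
    _ ≤ (TP K n ^ dP K n) ^ (a + 1) := Nat.pow_le_pow_left h3 _
    _ = TP K n ^ ((a + 1) * dP K n) := by rw [← pow_mul]; congr 1; ring

/-- The number of digits is small. -/
theorem dP_le (hK : 64 ≤ K) :
    dP K n ≤ (2 * (5 * Nat.log 2 K + 22) + 1) * (Nat.log 2 (n + 2) / ll n + 1) := by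
  have h0 := d_pos (n := n) hK
  have h1 := lt_four_Q (K := K) (n := n) (i := dP K n - 1) (by omega)
  have h2 := four_le (K := K) (n := n)
  have h3 : lT K n * (dP K n - 1) < mP K n := by
    refine (Nat.pow_lt_pow_iff_right (a := 2) (by norm_num)).1 ?_
    rw [pow_mul]
    exact h1.trans_le h2
  have h4 := m_le' K n hK
  have h5 := ll_le (n := n) hK
  have h6 : Nat.log 2 (n + 2) < ll n * (Nat.log 2 (n + 2) / ll n + 1) :=
    Nat.lt_mul_div_succ _ (Nat.succ_pos _)
  have h7 : 1 ≤ ll n := Nat.succ_pos _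
  generalize 5 * Nat.log 2 K + 22 = D at *
  generalize Nat.log 2 (n + 2) / ll n + 1 = u at *
  generalize Nat.log 2 (n + 2) = L at *
  have hu : 1 ≤ u := by
    rcases Nat.eq_zero_or_pos u with hu | hu
    · subst hu; omega
    · exact hu
  -- `ll * (d - 1) ≤ 2 lT (d - 1) < 2 m ≤ 2 D L < 2 D ll u`
  have h8 : ll n * (dP K n - 1) ≤ ll n * (2 * D * u) := by
    calc ll n * (dP K n - 1) ≤ 2 * lT K n * (dP K n - 1) := Nat.mul_le_mul_right _ h5
      _ = 2 * (lT K n * (dP K n - 1)) := by ring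
      _ ≤ 2 * (D * L) := by omega
      _ ≤ 2 * (D * (ll n * u)) := by gcongr
      _ = ll n * (2 * D * u) := by ring
  have h9 := Nat.le_of_mul_le_mul_left h8 h7
  calc dP K n ≤ 2 * D * u + 1 := by omega
    _ ≤ (2 * D + 1) * u := by nlinarith

end

/-! ### Answers -/

section

variable {α : Type} {M : DPDA α} (C : Cd M) {x : List α}

/-- The result of the evaluation of the start node on the level `l`. -/
noncomputable def ans (C : Cd M) (x : List α) (l : ℕ) : ℕ :=
  (C.sys x).small (C.K * (x.length + 3)) (TP C.K x.length) l (C.code (some M.start) 1 [M.bottom])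

/-- Whether an answer means acceptance. -/
noncomputable def good (C : Cd M) (x : List α) (r : ℕ) : ℕ :=
  C.tA ((r - 1) % C.K) (cell x (min ((r - 1) / C.K) (x.length + 1)))

theorem K_ge : 64 ≤ C.K := by unfold Cd.K; omega

/-- Words with short runs are answered on high levels. -/
theorem ans_top {a w l : ℕ} (h : WtAcc M x w) (hw : w ≤ a * (x.length + 1) ^ a)
    (hl : top C.K a x.length ≤ l) : ans C x l ≠ 0 := by
  obtain ⟨q, i, h1, h2⟩ := h
  obtain ⟨hi, s, hs, _, hs2⟩ := C.complete h1 (by omega) C.hD1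
  have h3 := hs2 (by simp)
  have h4 := size_le (n := x.length) (K_ge C) a hl
  have hsm := Sys.small_complete (C.closed x) (T := TP C.K x.length) (B := TP C.K x.length / 2)
    (by have := T_ge (n := x.length) (K_ge C); omega)
    (by have := TP_even (n := x.length) (K_ge C); omega) l _ (C.code_lt (by omega)) _ _ hs
    (by omega)
  rw [ans, hsm]
  exact Nat.succ_ne_zero _

/-- Words with few turns are answered on the level `lvl`. -/
theorem ans_turns {R l : ℕ} (h : M.AcceptsTurns R x) (hl : lvl x.length R ≤ l) :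
    ans C x l ≠ 0 := by
  obtain ⟨q, i, m, hi, hm, h1, h2⟩ := specTURN α M C x R h
  have hK := K_ge C
  have hT := TP_even (n := x.length) hK
  have hT8 := T_ge (n := x.length) hK
  obtain ⟨j, rfl⟩ : ∃ j, l = 3 + 1 + j := ⟨l - 4, by unfold lvl at hl; omega⟩
  have hmT : m ≤ (TP C.K x.length / 2 - 1 + 1) ^ j := by
    rw [show TP C.K x.length / 2 - 1 + 1 = TP C.K x.length / 2 by omega]
    refine hm.trans (le_trans ?_ (turns_le hK R (j := j) (by unfold lvl at hl; omega)))
    exact max_le (by omega) (by omega)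
  obtain ⟨s', hs', hRk⟩ := specSPLIT (C.sys x) 3 _ _ _ _ m h1 hmT
  have hsm := specALG (C.sys x) (C.K * (x.length + 3)) (TP C.K x.length) _ (C.closed x)
    (by omega) _ _ _ _ hRk hs' (C.code_lt (by omega))
  rw [ans, hsm]
  exact Nat.succ_ne_zero _

/-- Answers are right. -/
theorem ans_spec {l : ℕ} (h : ans C x l ≠ 0) : good C x (ans C x l) ≠ 0 ↔ M.Accepts x := by
  obtain ⟨c, hc⟩ : ∃ c, ans C x l = c + 1 := ⟨ans C x l - 1, by omega⟩
  obtain ⟨s, hs⟩ := Sys.small_sound (C.closed x) _ _ _ (C.code_lt (by omega)) c hc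
  rw [good, hc, Nat.add_sub_cancel]
  constructor
  · intro hne
    obtain ⟨q, i, hi, hci, w, _, hw⟩ := C.sound hs (some M.start) 1 [M.bottom] C.hD1 (by omega) rfl
    refine WtAcc.accepts (w := w) ⟨q, i, hw, fun q' hq' => ?_⟩
    by_contra hcon
    apply hne
    rw [hci, C.code_mod, C.code_div, min_eq_left hi, hq']
    simp only [Cd.tA, C.dec_enc (q := some q') (l := []) (Nat.zero_le _), if_neg hcon]
  · rintro ⟨t, l', hacc⟩
    obtain ⟨w, _, q, i, h1, h2⟩ := wtAcc_of_acceptsAt hacc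
    obtain ⟨hi, s', hs', _⟩ := C.complete h1 (by omega) C.hD1
    obtain ⟨hc', _⟩ := hs.unique hs'
    rw [← hc', C.code_mod, C.code_div, min_eq_left hi]
    cases q with
    | none => simp only [Cd.tA, C.dec_enc (q := none) (l := []) (Nat.zero_le _)]; norm_num
    | some q' =>
      simp only [Cd.tA, C.dec_enc (q := some q') (l := []) (Nat.zero_le _), if_pos (h2 q' rfl)]
      norm_num

/-- Higher levels have the same answers. -/
theorem good_eq {l : ℕ} (h : ans C x l ≠ 0) (hacc : M.Accepts x) : good C x (ans C x l) = 1 := by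
  have h1 := (ans_spec C h).2 hacc
  have h2 : good C x (ans C x l) ≤ 1 := C.tA_le _ _
  omega

end

end Pool.Agent.Lib.MP_9277c3_lc.TN
end

section
/-!
# The theorem on turns
-/
set_option autoImplicit false

namespace Pool.Agent.Lib.MP_9277c3_lc.TN

open CM CL

section

variable {α : Type} {M : DPDA α} (C : Cd M) {x : List α}

/-- Runs with few turns, in terms of trees, are answered on the level `lvl`. -/
theorem ans_wb {r R l : ℕ} {q : Option M.State} {i : ℕ}
    (h : M.WB x r false (some M.start) 1 [M.bottom] q i) (hr : r ≤ R) (hl : lvl x.length R ≤ l) :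
    ans C x l ≠ 0 := by
  obtain ⟨-, -, -, -, m, h1, hm⟩ := TURNM.good C h (Nat.le_add_left _ _) C.hD1
  have hK := K_ge C
  have hT := TP_even (n := x.length) hK
  have hT8 := T_ge (n := x.length) hK
  obtain ⟨j, rfl⟩ : ∃ j, l = 3 + 1 + j := ⟨l - 4, by unfold lvl at hl; omega⟩
  have hmT : m ≤ (TP C.K x.length / 2 - 1 + 1) ^ j := by
    rw [show TP C.K x.length / 2 - 1 + 1 = TP C.K x.length / 2 by omega]
    refine hm.trans (le_trans ?_ (turns_le hK R (j := j) (by unfold lvl at hl; omega)))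
    exact max_le (by omega) (by omega)
  obtain ⟨s', hs', hRk⟩ := specSPLIT (C.sys x) 3 _ _ _ _ m h1 hmT
  have hsm := specALG (C.sys x) (C.K * (x.length + 3)) (TP C.K x.length) _ (C.closed x)
    (by omega) _ _ _ _ hRk hs' (C.code_lt (by omega))
  rw [ans, hsm]
  exact Nat.succ_ne_zero _

/-- Accepting runs of one-way automata have short trees. -/
theorem wtAcc_oneway [Finite α]
    (hM : ∀ q c X q' mv β, M.next q c X = some (q', mv, β) → mv ≠ Move.left) :
    ∃ a : ℕ, ∀ x : List α, M.Accepts x → ∃ w, w ≤ a * (x.length + 1) ^ a ∧ WtAcc M x w := by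
  obtain ⟨C⟩ := exists_Cd M
  obtain ⟨a, ha⟩ := C.oneway_linear hM
  refine ⟨a + 1, fun x ⟨t, l, h⟩ => ?_⟩
  obtain ⟨w, _, q, i, h1, h2⟩ := wtAcc_of_acceptsAt h
  obtain ⟨hi, n, hn, _⟩ := C.complete h1 (by omega) C.hD1
  have h3 := ha x (some M.start) 1 [M.bottom] C.hD1 (by omega) _ _ hn
  obtain ⟨q', i', _, hc, w', hw', hwt⟩ := C.sound hn (some M.start) 1 [M.bottom] C.hD1 (by omega)
    rfl
  obtain ⟨rfl, rfl⟩ := C.code_inj hc
  refine ⟨w', ?_, q, i, hwt, h2⟩
  calc w' ≤ a * (x.length + 1) := hw'.trans h3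
    _ ≤ (a + 1) * (x.length + 1) ^ (a + 1) := by
      refine Nat.mul_le_mul (Nat.le_succ _) (Nat.le_self_pow (Nat.succ_ne_zero _) _)

end

section

variable {n R : ℕ}

theorem log_succ_le (m : ℕ) : Nat.log 2 (m + 1) ≤ Nat.log 2 m + 1 := by
  rcases Nat.eq_zero_or_pos m with h | h
  · subst h; simp
  · calc Nat.log 2 (m + 1) ≤ Nat.log 2 (m * 2) := Nat.log_mono_right (by omega)
      _ = Nat.log 2 m + 1 := Nat.log_mul_base (by norm_num) (by omega)

theorem div_succ_le (m d : ℕ) (hd : 1 ≤ d) : (m + 1) / d ≤ m / d + 1 := by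
  calc (m + 1) / d ≤ (m + d) / d := Nat.div_le_div_right (by omega)
    _ = m / d + 1 := Nat.add_div_right _ hd

theorem lvl_succ_le : lvl n (R + 1) + 1 ≤ 11 * (Nat.log 2 (R + 1) / ll n + 1) := by
  have h1 : Nat.log 2 (R + 1 + 1) / ll n ≤ Nat.log 2 (R + 1) / ll n + 1 :=
    (Nat.div_le_div_right (log_succ_le _)).trans (div_succ_le _ _ (Nat.succ_pos _))
  unfold lvl
  generalize Nat.log 2 (R + 1 + 1) / ll n = b at *
  generalize Nat.log 2 (R + 1) / ll n = a at *
  omega

theorem top_aux {a d D u q : ℕ} (h1 : d ≤ D * (u + 1)) (h2 : u ≤ q + 1) :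
    2 * (a + 1) * d + 1 ≤ (4 * (a + 1) * D + 1) * (q + 1) := by
  have h3 : d ≤ D * (2 * (q + 1)) := h1.trans (Nat.mul_le_mul_left _ (by omega))
  calc 2 * (a + 1) * d + 1 ≤ 2 * (a + 1) * (D * (2 * (q + 1))) + (q + 1) :=
        Nat.add_le_add (Nat.mul_le_mul_left _ h3) (Nat.le_add_left _ _)
    _ = (4 * (a + 1) * D + 1) * (q + 1) := by ring

/-- The factor for the number of levels. -/
def cK (K : ℕ) : ℕ := 2 * (5 * Nat.log 2 K + 22) + 1

theorem top_le {K a : ℕ} (hK : 64 ≤ K) (hn : n ≤ R) :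
    top K a n + 1 ≤ (4 * (a + 1) * cK K + 1) * (Nat.log 2 (R + 1) / ll n + 1) := by
  have h2 : Nat.log 2 (n + 2) / ll n ≤ Nat.log 2 (R + 1) / ll n + 1 := by
    refine (Nat.div_le_div_right ?_).trans (div_succ_le _ _ (Nat.succ_pos _))
    exact (Nat.log_mono_right (by omega)).trans (log_succ_le (R + 1))
  exact top_aux (dP_le (n := n) hK) h2

end

/-- The theorem on turns. -/
theorem turns_oneway (α : Type) [Finite α] (M : DPDA α)
    (hM : ∀ q c X q' mv β, M.next q c X = some (q', mv, β) → mv ≠ Move.left) :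
    ∃ (c : ℕ) (A : TM α), A.Decides M.Accepts ∧ ∀ x R, (x.length ≤ R ∨ M.TurnsLe R x) →
      A.SpaceOn x (c * (Nat.log 2 (x.length + 2) *
        (Nat.log 2 (R + 1) / (Nat.log 2 (Nat.log 2 (x.length + 2)) + 1) + 1))) := by
  obtain ⟨C⟩ := exists_Cd M.plus
  obtain ⟨a, ha⟩ := wtAcc_oneway (M := M.plus) (DPDA.plus_oneway hM)
  have hK := K_ge C
  obtain ⟨c, A, hA, hS⟩ := exists_TM_of_sysT C.cc rfl (fun a => by simp [Cd.cc]) C.K (2 * (a + 1))
    hK (fun d => (C.cc_lt d).le) C.sysE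
    (Exp.lit (C.enc (some M.plus.start) [M.plus.bottom]) + Exp.lit C.K * 1) C.accE C.sys
    (fun _ => C.code (some M.plus.start) 1 [M.plus.bottom]) M.Accepts (fun x => by
      refine ⟨C.impl x, C.closed x, C.nx_lt x, fun v => C.tagF_le _, C.code_lt (by omega),
        fun s _ => rfl, fun s => ?_, fun l s hs hl hr => ?_⟩
      · simp only [Cd.accE, eval_mul, eval_sub, eval_var, eval_one, Cd.eval_tab]
        have h1 : s .res - (s .res - 1) ≤ 1 := by omega
        refine (Nat.mul_le_mul h1 (?_ : _ ≤ 1)).trans (by norm_num)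
        split_ifs
        · exact C.tA_le _ _
        · exact Nat.zero_le _
      · rw [C.eval_accE hs]
        have hans : s .res = ans C x l := hr
        rw [hans, ← DPDA.plus_accepts]
        by_cases h0 : ans C x l = 0
        · rw [h0]
          simp only [Nat.zero_sub, Nat.zero_mul, ne_eq, not_true_eq_false, false_iff]
          intro hacc
          rcases hl with hl | hl
          · exact hl h0
          · obtain ⟨w, hw, hwt⟩ := ha x hacc
            exact ans_top C hwt hw (l := l) (by rw [hl, top]) h0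
        · have h1 : ans C x l - (ans C x l - 1) = 1 := by omega
          rw [h1, Nat.one_mul]
          exact ans_spec C h0)
  refine ⟨c * (4 * (a + 1) * cK C.K + 12), A, hA, fun x R hR cfg hcfg j => ?_⟩
  change _ < _ * (_ * (Nat.log 2 (R + 1) / ll x.length + 1))
  have key : ∀ l u : ℕ, u ≤ 4 * (a + 1) * cK C.K + 12 →
      l + 1 ≤ u * (Nat.log 2 (R + 1) / ll x.length + 1) →
      c * (l + 1) * Nat.log 2 (x.length + 2) ≤ c * (4 * (a + 1) * cK C.K + 12) *
        (Nat.log 2 (x.length + 2) * (Nat.log 2 (R + 1) / ll x.length + 1)) := by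
    intro l u hu hl
    generalize 4 * (a + 1) * cK C.K + 12 = D at *
    generalize Nat.log 2 (R + 1) / ll x.length + 1 = q at *
    calc c * (l + 1) * Nat.log 2 (x.length + 2) ≤ c * (D * q) * Nat.log 2 (x.length + 2) :=
          Nat.mul_le_mul_right _ (Nat.mul_le_mul_left _ (hl.trans (Nat.mul_le_mul_right _ hu)))
      _ = c * D * (Nat.log 2 (x.length + 2) * q) := by ring
  rcases hR with hR | hR
  · exact (hS x _ (Or.inr rfl) cfg hcfg j).trans_le
      (key _ _ (by omega) (top_le (a := a) hK hR))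
  · obtain ⟨r, q, i, hr, hwb⟩ := DPDA.turns_wb hM hR
    exact (hS x _ (Or.inl (ans_wb C hwb hr le_rfl)) cfg hcfg j).trans_le
      (key _ _ (by omega) (lvl_succ_le (n := x.length) (R := R)))

end Pool.Agent.Lib.MP_9277c3_lc.TN
end
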